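import Pool.Agent.Q74.FC.Fin

set_option autoImplicit false

/-!
# The average stopping time of the Collatz map on `F_2[x]` is linear in the degree

Proof. The first `d` constant terms of the orbit of a uniform polynomial of degree `d` under the
accelerated map `S` (`((x+1) f + 1)/x` or `f/x`) are independent fair bits. What is needed is control after
these `d` steps: as `x^n S^n f = (x+1)^b f + R` with `deg R < n`, where `b` is the number of odd terms, at
most `2^(d-a)` polynomials of degree `d` are sent to a given polynomial of degree `a`, that is, the law of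
`S^d f` is at most the sum over `a` of the uniform laws in degree `a`. Hence the passage from degree `d` to
degree at most `3d/4` can be repeated down to degree `√d`, with exceptional probability smaller than every
power of `d`, and there the quadratic worst case bound is linear in `d`.
-/

namespace Pool.Agent.Results.MP_d51b1e_co.LinearAverage

open Polynomial

/-- The Collatz map on `F_2[x]`: `(x + 1) f + 1` if the constant term of `f` is `1`, and `f / x` if it is
`0` (`divX` is the quotient by `x`). -/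
noncomputable def T (f : (ZMod 2)[X]) : (ZMod 2)[X] := if f.coeff 0 = 1 then (X + 1) * f + 1 else f.divX

/-- the stopping time `t_min(f)`, the least `k` with `T^k(f) = 1` -/
noncomputable def tmin (f : (ZMod 2)[X]) : ℕ := sInf {k : ℕ | T^[k] f = 1}

/-- the average stopping time in degree `d`: `ρ(d) = 2^(-d) ∑_{deg f = d} t_min(f)` -/
noncomputable def rho (d : ℕ) : ℝ := (∑ᶠ (f : (ZMod 2)[X]) (_ : f.degree = d), (tmin f : ℝ)) / 2 ^ d

theorem rho_eq (d : ℕ) : rho d = (∑ f ∈ Pool.Agent.Q74.FC.D d, (Pool.Agent.Q74.FC.tm f : ℝ)) / 2 ^ d := by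
  have h : {f : (ZMod 2)[X] | f.degree = d} = (Pool.Agent.Q74.FC.D d : Set ((ZMod 2)[X])) := by
    ext f
    rw [Finset.mem_coe, Pool.Agent.Q74.FC.mem_D]
    rfl
  have h2 : (∑ᶠ (f : (ZMod 2)[X]) (_ : f.degree = d), (tmin f : ℝ)) =
      ∑ᶠ (f : (ZMod 2)[X]) (_ : f ∈ (Pool.Agent.Q74.FC.D d : Set ((ZMod 2)[X]))), (tmin f : ℝ) := by
    rw [← h]
    rfl
  unfold rho
  rw [h2, finsum_mem_coe_finset]
  rfl

/-- Every nonzero polynomial over `F_2` reaches `1`, and the average stopping time is linear in the degree: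
`d ≤ ρ(d) ≤ 15 d` for all sufficiently large `d`. -/
theorem result : (∀ f : (ZMod 2)[X], f ≠ 0 → ∃ k : ℕ, T^[k] f = 1) ∧
    ∃ d₀ : ℕ, ∀ d : ℕ, d₀ ≤ d → 1 * (d : ℝ) ≤ rho d ∧ rho d ≤ 15 * d := by
  refine ⟨fun f hf => ?_, ?_⟩
  · obtain ⟨k, _, hk⟩ := Pool.Agent.Q74.FC.reaches _ f hf rfl
    exact ⟨k, hk⟩
  · obtain ⟨d₀, h⟩ := Pool.Agent.Q74.FC.main
    refine ⟨d₀, fun d hd => ?_⟩
    rw [rho_eq, one_mul]
    exact h d hd

end Pool.Agent.Results.MP_d51b1e_co.LinearAverage
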